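import Mathlib
import Pool.Agent.H93.SP.Targets

/-!
# Radial retraction of the cube, collar lemma
-/

set_option autoImplicit false

open Topology Set
open scoped unitInterval

namespace Pool.Agent.H90.SP

noncomputable section

variable {k : ℕ}

/-- the sup norm of `2 y - 1` -/
def nn (y : Fin k → I) : ℝ := ‖(fun i => 2 * (y i : ℝ) - 1 : Fin k → ℝ)‖

theorem continuous_nn : Continuous (nn : (Fin k → I) → ℝ) := by
  unfold nn
  fun_prop

theorem nn_nonneg (y : Fin k → I) : 0 ≤ nn y := norm_nonneg _

theorem le_nn (y : Fin k → I) (i : Fin k) : |2 * (y i : ℝ) - 1| ≤ nn y :=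
  norm_le_pi_norm (fun i => 2 * (y i : ℝ) - 1 : Fin k → ℝ) i

theorem nn_le_one (y : Fin k → I) : nn y ≤ 1 := by
  refine (pi_norm_le_iff_of_nonneg zero_le_one).2 fun i => ?_
  rw [Real.norm_eq_abs, abs_le]
  constructor <;> linarith [(y i).2.1, (y i).2.2]

theorem nn_boundary {y : Fin k → I} (h : y ∈ Cube.boundary (Fin k)) : nn y = 1 := by
  refine le_antisymm (nn_le_one y) ?_
  obtain ⟨i, h⟩ := h
  have := le_nn y i
  rcases h with h | h <;> rw [h] at this <;> norm_num at this <;> exact this

theorem exists_nn (y : Fin k → I) (h : 0 < nn y) : ∃ i, |2 * (y i : ℝ) - 1| = nn y := by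
  by_contra hne
  push Not at hne
  have h1 : nn y < nn y := by
    refine (pi_norm_lt_iff h).2 fun i => ?_
    exact lt_of_le_of_ne (le_nn y i) (hne i)
  exact lt_irrefl _ h1

/-- the denominator of the radial map -/
def mm (u : I) (y : Fin k → I) : ℝ := max (1 / (1 + (u : ℝ))) (nn y)

theorem mm_pos (u : I) (y : Fin k → I) : 0 < mm u y :=
  lt_max_of_lt_left (by have := u.2.1; positivity)

theorem nn_le_mm (u : I) (y : Fin k → I) : nn y ≤ mm u y := le_max_right _ _

theorem abs_le_mm (u : I) (y : Fin k → I) (i : Fin k) :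
    |((y i : ℝ) - 1 / 2) / mm u y| ≤ 1 / 2 := by
  rw [abs_div, abs_of_pos (mm_pos u y), div_le_iff₀ (mm_pos u y)]
  have h1 := (le_nn y i).trans (nn_le_mm u y)
  have h2 : |2 * (y i : ℝ) - 1| = 2 * |(y i : ℝ) - 1 / 2| := by
    rw [show (2 * (y i : ℝ) - 1) = 2 * ((y i : ℝ) - 1 / 2) by ring, abs_mul, abs_two]
  rw [h2] at h1
  linarith

/-- the radial map `y ↦ c + min (1 + u, 1 / n(y)) (y - c)` -/
def qq (u : I) (y : Fin k → I) : Fin k → I := fun i =>
  ⟨1 / 2 + ((y i : ℝ) - 1 / 2) / mm u y, by
    have := abs_le.1 (abs_le_mm u y i)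
    constructor <;> linarith⟩

theorem qq_coe (u : I) (y : Fin k → I) (i : Fin k) :
    (qq u y i : ℝ) = 1 / 2 + ((y i : ℝ) - 1 / 2) / mm u y := rfl

theorem continuous_qq : Continuous (fun p : I × (Fin k → I) => qq p.1 p.2) := by
  refine continuous_pi fun i => ?_
  refine Continuous.subtype_mk ?_ _
  refine continuous_const.add ((?_ : Continuous _).div ?_ fun p => (mm_pos p.1 p.2).ne')
  · fun_prop
  · unfold mm
    refine Continuous.max ?_ (continuous_nn.comp continuous_snd)
    refine continuous_const.div (by fun_prop) fun p => ?_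
    have := p.1.2.1
    positivity

theorem qq_zero (y : Fin k → I) : qq 0 y = y := by
  funext i
  refine Subtype.ext ?_
  have : mm 0 y = 1 := by
    unfold mm
    simp [nn_le_one y]
  rw [qq_coe, this]
  ring

theorem mm_boundary {u : I} {y : Fin k → I} (h : y ∈ Cube.boundary (Fin k)) : mm u y = 1 := by
  unfold mm
  rw [nn_boundary h]
  refine max_eq_right ?_
  have := u.2.1
  rw [div_le_one (by positivity)]
  linarith

theorem qq_boundary {u : I} {y : Fin k → I} (h : y ∈ Cube.boundary (Fin k)) : qq u y = y := by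
  funext i
  refine Subtype.ext ?_
  rw [qq_coe, mm_boundary h]
  ring

theorem qq_mem {u : I} {y : Fin k → I} (h : 1 ≤ (1 + (u : ℝ)) * nn y) :
    qq u y ∈ Cube.boundary (Fin k) := by
  have hu : 0 < 1 + (u : ℝ) := by have := u.2.1; positivity
  have hn : 0 < nn y := by
    by_contra h0
    have : nn y = 0 := le_antisymm (not_lt.1 h0) (nn_nonneg y)
    rw [this] at h
    norm_num at h
  obtain ⟨i, hi⟩ := exists_nn y hn
  have hm : mm u y = nn y := by
    unfold mm
    refine max_eq_right ?_
    rw [div_le_iff₀ hu]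
    linarith
  refine ⟨i, ?_⟩
  rcases abs_choice (2 * (y i : ℝ) - 1) with h1 | h1
  · right
    refine Subtype.ext ?_
    rw [qq_coe, hm, ← hi, h1]
    have h2 : 0 < 2 * (y i : ℝ) - 1 := by rw [← h1, hi]; exact hn
    rw [Set.Icc.coe_one]
    field_simp
    ring
  · left
    refine Subtype.ext ?_
    rw [qq_coe, hm, ← hi, h1]
    have h2 : 0 < -(2 * (y i : ℝ) - 1) := by rw [← h1, hi]; exact hn
    rw [Set.Icc.coe_zero]
    have h3 : (y i : ℝ) - 1 / 2 = -(1 / 2) * (-(2 * (y i : ℝ) - 1)) := by ring
    rw [h3, mul_div_assoc, div_self h2.ne']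
    ring

/-- composition with the radial map, relative to the boundary -/
theorem homotopicRel_qq {X : Type*} [TopologicalSpace X] (f : C(Fin k → I, X)) :
    f.HomotopicRel ⟨fun y => f (qq 1 y), f.continuous.comp
      (continuous_qq.comp (continuous_const.prodMk continuous_id))⟩ (Cube.boundary (Fin k)) := by
  refine ⟨⟨⟨⟨fun p => f (qq p.1 p.2), f.continuous.comp continuous_qq⟩, ?_, ?_⟩, ?_⟩⟩
  · intro y
    change f (qq 0 y) = f y
    rw [qq_zero]
  · intro y
    rfl
  · intro t y hy
    change f (qq t y) = f y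
    rw [qq_boundary hy]

theorem cl : Pool.Agent.H93.SPB.T_CL := by
  intro X _ k f g K L hf hg h0 h1 hr
  have hfg : ∀ y ∈ Cube.boundary (Fin k), f y = g y := by
    intro y hy
    rw [← hg, ← h0 1 y hy, (hr 0 y hy).2]
  have cq : Continuous (qq (1 : I) : (Fin k → I) → (Fin k → I)) :=
    continuous_qq.comp (continuous_const.prodMk continuous_id)
  refine (homotopicRel_qq f).trans (ContinuousMap.HomotopicRel.trans ?_ (homotopicRel_qq g).symm)
  -- the middle homotopy
  set r : (Fin k → I) → I := fun y => Set.projIcc 0 1 zero_le_one (2 * nn y - 1) with hr'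
  have cr : Continuous r :=
    continuous_projIcc.comp ((continuous_const.mul continuous_nn).sub continuous_const)
  have hmem : ∀ y : Fin k → I, 1 / 2 ≤ nn y → qq (1 : I) y ∈ Cube.boundary (Fin k) := by
    intro y hy
    refine qq_mem ?_
    rw [Set.Icc.coe_one]
    linarith
  set H : I × (Fin k → I) → X := fun p =>
    if nn p.2 ≤ 1 / 2 then K (p.1, qq 1 p.2) else L (r p.2, (p.1, qq 1 p.2)) with hH
  have cH : Continuous H := by
    refine Continuous.if_le ?_ ?_ (continuous_nn.comp continuous_snd) continuous_const ?_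
    · exact K.continuous.comp (continuous_fst.prodMk (cq.comp continuous_snd))
    · exact L.continuous.comp ((cr.comp continuous_snd).prodMk
        (continuous_fst.prodMk (cq.comp continuous_snd)))
    · rintro ⟨s, y⟩ hy
      have hy : nn y = 1 / 2 := hy
      have e : r y = 0 := by
        simp only [hr', hy]
        norm_num
      change K (s, qq 1 y) = L (r y, (s, qq 1 y))
      rw [e]
      exact (h0 s _ (hmem y hy.ge)).symm
  refine ⟨⟨⟨⟨H, cH⟩, ?_, ?_⟩, ?_⟩⟩
  · intro y
    change H (0, y) = f (qq 1 y)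
    simp only [hH]
    split_ifs with h
    · exact hf _
    · exact (hr _ _ (hmem y (not_le.1 h).le)).1
  · intro y
    change H (1, y) = g (qq 1 y)
    simp only [hH]
    split_ifs with h
    · exact hg _
    · rw [(hr _ _ (hmem y (not_le.1 h).le)).2]
      exact hfg _ (hmem y (not_le.1 h).le)
  · intro t y hy
    change H (t, y) = f (qq 1 y)
    have e := nn_boundary hy
    have e1 : ¬ nn y ≤ 1 / 2 := by rw [e]; norm_num
    have e2 : r y = 1 := by
      simp only [hr', e]
      norm_num
    simp only [hH, if_neg e1, e2]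
    exact h1 _ _ (hmem y (not_le.1 e1).le)

end

end Pool.Agent.H90.SP
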