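import Mathlib
import Pool.Agent.H93.SP.Targets

/-!
# Injectivity of `jj`, continuity of sums
-/

set_option autoImplicit false

open Topology Set
open scoped unitInterval
open Pool.Agent.H59 Pool.Agent.H64.LB Pool.Agent.H93.SPB

namespace Pool.Agent.H90.SP

noncomputable section

section

variable {Y : Type} {N : ℕ}

/-- the sum of the points -/
def ff (x : Fin N → Y) : Y →₀ ℤ := ∑ i, Finsupp.single (x i) (1 : ℤ)

open Classical in
theorem ff_apply (x : Fin N → Y) (y : Y) : ff x y = (Fintype.card {i // x i = y} : ℤ) := by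
  unfold ff
  rw [Finsupp.finsetSum_apply]
  simp only [Finsupp.single_apply]
  rw [Finset.sum_boole, Fintype.card_subtype]

theorem perm_of_ff {x x' : Fin N → Y} (h : ff x = ff x') : ∃ s : Equiv.Perm (Fin N), x' = x ∘ s := by
  classical
  have e : ∀ y, Nonempty ({i // x' i = y} ≃ {i // x i = y}) := by
    intro y
    refine ⟨Fintype.equivOfCardEq ?_⟩
    have h1 := ff_apply x y
    have h2 := ff_apply x' y
    rw [h] at h1
    rw [h1] at h2
    exact_mod_cast h2.symm
  let e : ∀ y, {i // x' i = y} ≃ {i // x i = y} := fun y => (e y).some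
  refine ⟨((Equiv.sigmaFiberEquiv x').symm.trans (Equiv.sigmaCongrRight e)).trans
    (Equiv.sigmaFiberEquiv x), ?_⟩
  funext i
  have := (e (x' i) ⟨i, rfl⟩).2
  exact this.symm

/-- the total degree -/
def deg : (Y →₀ ℤ) →+ ℤ := Finsupp.liftAddHom (fun _ => AddMonoidHom.id ℤ)

theorem deg_single (y : Y) (a : ℤ) : deg (Finsupp.single y a) = a := by
  simp [deg]

theorem deg_ff (x : Fin N → Y) : deg (ff x) = N := by
  unfold ff
  rw [map_sum]
  simp [deg_single]

variable [TopologicalSpace Y]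

theorem jj_proj (y0 : Y) (x : Fin N → Y) : jj y0 N (proj N Y x) = (ff x).erase y0 := rfl

theorem jj_injective (y0 : Y) (N : ℕ) : Function.Injective (jj y0 N) := by
  intro z z' h
  obtain ⟨x, rfl⟩ := proj_surjective N Y z
  obtain ⟨x', rfl⟩ := proj_surjective N Y z'
  rw [jj_proj, jj_proj] at h
  refine proj_eq_iff.2 (perm_of_ff ?_)
  have h1 := Finsupp.erase_add_single y0 (ff x)
  have h2 := Finsupp.erase_add_single y0 (ff x')
  have h3 := congrArg deg h1
  have h4 := congrArg deg h2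
  rw [map_add, deg_single, deg_ff] at h3 h4
  rw [h] at h3
  have h5 : ff x y0 = ff x' y0 := by linarith
  rw [← h1, ← h2, h, h5]

theorem jj_spInc (y0 : Y) (N : ℕ) (z : SP N Y) : jj y0 (N + 1) (spInc y0 N z) = jj y0 N z := by
  obtain ⟨x, rfl⟩ := proj_surjective N Y z
  rw [spInc_proj, jj_proj, jj_proj]
  unfold ff
  rw [Fin.sum_univ_castSucc]
  simp only [snocC, ContinuousMap.coe_mk, Fin.snoc_castSucc, Fin.snoc_last]
  rw [Finsupp.erase_add, Finsupp.erase_single, add_zero]

theorem jj_pt (y0 : Y) (N : ℕ) : jj y0 N (spPt y0 N) = 0 := by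
  unfold spPt
  rw [jj_proj]
  unfold ff
  rw [← Finsupp.eraseAddHom_apply, map_sum]
  refine Finset.sum_eq_zero fun i _ => ?_
  rw [Finsupp.eraseAddHom_apply, Finsupp.erase_single]

theorem jj_spIncK (y0 : Y) (N K : ℕ) (z : SP N Y) :
    jj y0 (N + K) (spIncK y0 N K z) = jj y0 N z := by
  induction K with
  | zero => rfl
  | succ K ih =>
    change jj y0 (N + K + 1) (spInc y0 (N + K) (spIncK y0 N K z)) = _
    rw [jj_spInc, ih]

theorem IsC.mono {y0 : Y} {T : Type} [TopologicalSpace T] {N N' : ℕ} {u : T → (Y →₀ ℤ)}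
    (h : N ≤ N') (hu : IsC y0 N u) : IsC y0 N' u := by
  obtain ⟨K, rfl⟩ := Nat.exists_eq_add_of_le h
  obtain ⟨v, hv⟩ := hu
  refine ⟨(spIncK y0 N K).comp v, fun t => ?_⟩
  rw [ContinuousMap.comp_apply, jj_spIncK, hv]

/-- the sum map, as a function -/
def saddF (N N' : ℕ) : SP N Y → SP N' Y → SP (N + N') Y :=
  Quotient.map₂ (sa := spSetoid N Y) (sb := spSetoid N' Y) (sc := spSetoid (N + N') Y)
    (fun x x' => Fin.append x x') (by
      rintro x _ ⟨s, rfl⟩ x' _ ⟨s', rfl⟩
      refine ⟨(finSumFinEquiv.symm.trans (Equiv.sumCongr s s')).trans finSumFinEquiv, ?_⟩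
      funext i
      refine Fin.addCases (fun j => ?_) (fun j => ?_) i <;> simp)

theorem saddF_proj {N N' : ℕ} (x : Fin N → Y) (x' : Fin N' → Y) :
    saddF N N' (proj N Y x) (proj N' Y x') = proj (N + N') Y (Fin.append x x') := rfl

/-- the continuous sum map -/
def sadd (N N' : ℕ) (Y : Type) [TopologicalSpace Y] : C(SP N Y × SP N' Y, SP (N + N') Y) where
  toFun p := saddF N N' p.1 p.2
  continuous_toFun := by
    have h1 : IsOpenQuotientMap (proj N Y) := ⟨proj_surjective N Y, (proj N Y).continuous,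
      proj_isOpenMap N Y⟩
    have h2 : IsOpenQuotientMap (proj N' Y) := ⟨proj_surjective N' Y, (proj N' Y).continuous,
      proj_isOpenMap N' Y⟩
    rw [(h1.prodMap h2).isQuotientMap.continuous_iff]
    change Continuous (fun p : (Fin N → Y) × (Fin N' → Y) => proj (N + N') Y (Fin.append p.1 p.2))
    refine (proj (N + N') Y).continuous.comp (continuous_pi fun i => ?_)
    refine Fin.addCases (fun j => ?_) (fun j => ?_) i
    · simp only [Fin.append_left]
      fun_prop
    · simp only [Fin.append_right]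
      fun_prop

theorem sadd_proj {N N' : ℕ} (x : Fin N → Y) (x' : Fin N' → Y) :
    sadd N N' Y (proj N Y x, proj N' Y x') = proj (N + N') Y (Fin.append x x') := rfl

theorem jj_sadd (y0 : Y) {N N' : ℕ} (z : SP N Y) (z' : SP N' Y) :
    jj y0 (N + N') (sadd N N' Y (z, z')) = jj y0 N z + jj y0 N' z' := by
  obtain ⟨x, rfl⟩ := proj_surjective N Y z
  obtain ⟨x', rfl⟩ := proj_surjective N' Y z'
  rw [sadd_proj, jj_proj, jj_proj, jj_proj, ← Finsupp.erase_add]
  congr 1
  unfold ff
  rw [Fin.sum_univ_add]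
  simp

theorem IsC.add {y0 : Y} {T : Type} [TopologicalSpace T] {N N' : ℕ} {u u' : T → (Y →₀ ℤ)}
    (hu : IsC y0 N u) (hu' : IsC y0 N' u') : IsC y0 (N + N') (u + u') := by
  obtain ⟨v, hv⟩ := hu
  obtain ⟨v', hv'⟩ := hu'
  refine ⟨(sadd N N' Y).comp (v.prodMk v'), fun t => ?_⟩
  rw [ContinuousMap.comp_apply]
  change _ = jj y0 (N + N') (sadd N N' Y (v t, v' t))
  rw [jj_sadd, ← hv, ← hv']
  rfl

theorem IsC.zero {y0 : Y} {T : Type} [TopologicalSpace T] : IsC y0 0 (0 : T → (Y →₀ ℤ)) :=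
  ⟨ContinuousMap.const _ (spPt y0 0), fun _ => by
    rw [ContinuousMap.const_apply, jj_pt]
    rfl⟩

/-- composition -/
theorem IsC.comp {y0 : Y} {T T' : Type} [TopologicalSpace T] [TopologicalSpace T'] {N : ℕ}
    {u : T → (Y →₀ ℤ)} (hu : IsC y0 N u) {φ : T' → T} (hφ : Continuous φ) :
    IsC y0 N (fun t => u (φ t)) := by
  obtain ⟨v, hv⟩ := hu
  exact ⟨v.comp ⟨φ, hφ⟩, fun t => hv _⟩

/-- gluing along an inequality -/
theorem IsC.ite {y0 : Y} {T : Type} [TopologicalSpace T] {N : ℕ} {u u' : T → (Y →₀ ℤ)}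
    (hu : IsC y0 N u) (hu' : IsC y0 N u') {f g : T → ℝ} (hf : Continuous f) (hg : Continuous g)
    (h : ∀ t, f t = g t → u t = u' t) :
    IsC y0 N (fun t => if f t ≤ g t then u t else u' t) := by
  obtain ⟨v, hv⟩ := hu
  obtain ⟨v', hv'⟩ := hu'
  refine ⟨⟨fun t => if f t ≤ g t then v t else v' t, ?_⟩, ?_⟩
  · refine Continuous.if_le v.continuous v'.continuous hf hg fun t ht => ?_
    refine jj_injective y0 N ?_
    rw [← hv, ← hv', h t ht]
  · intro t
    change (if f t ≤ g t then u t else u' t) = jj y0 N (if f t ≤ g t then v t else v' t)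
    split_ifs
    · exact hv t
    · exact hv' t

end

theorem jc : T_JC := fun _ _ y0 =>
  ⟨jj_injective y0, jj_spInc y0, jj_pt y0, fun _ _ _ _ _ h hu => IsC.mono h hu,
    fun _ _ _ _ _ _ hu hu' => IsC.add hu hu', fun _ _ => IsC.zero⟩

end

end Pool.Agent.H90.SP
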