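import Mathlib
import Pool.Agent.H90.SP.JC
import Pool.Agent.H90.SP.Cube

/-!
# Cancellation of a summand
-/

set_option autoImplicit false

open Topology Set
open scoped unitInterval
open Pool.Agent.H59 Pool.Agent.H64.LB Pool.Agent.H93.SPB

namespace Pool.Agent.H90.SP

noncomputable section

/-- a map from the cube to the symmetric product of a path connected space is null-homotopic -/
theorem exists_null {Y : Type} [TopologicalSpace Y] [PathConnectedSpace Y] (y0 : Y) {k N : ℕ}
    (bv : C(Fin k → I, SP N Y)) : bv.Homotopic (ContinuousMap.const _ (spPt y0 N)) := by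
  have h1 : bv.Homotopic (ContinuousMap.const _ (bv 0)) := by
    refine ⟨⟨⟨fun p => bv (fun i => σ p.1 * p.2 i), ?_⟩, ?_, ?_⟩⟩
    · exact bv.continuous.comp (by fun_prop)
    · intro y
      change bv (fun i => σ 0 * y i) = bv y
      simp
    · intro y
      change bv (fun i => σ 1 * y i) = bv 0
      simp only [unitInterval.symm_one, zero_mul]
      rfl
  refine h1.trans ?_
  rw [ContinuousMap.homotopic_const_iff]
  obtain ⟨x, hx⟩ := proj_surjective N Y (bv 0)
  have j : Joined x (fun _ => y0) := by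
    have : PathConnectedSpace (Fin N → Y) := inferInstance
    exact PathConnectedSpace.joined _ _
  rw [← hx]
  exact j.map (proj N Y).continuous

/-- the time change -/
def vv (s : I) : I := Set.projIcc 0 1 zero_le_one (max (1 - 3 * (s : ℝ)) (3 * s - 2))

theorem continuous_vv : Continuous vv := by
  refine continuous_projIcc.comp ?_
  fun_prop

theorem vv_zero : vv 0 = 1 := by
  unfold vv
  refine Set.projIcc_of_right_le _ ?_
  rw [Set.Icc.coe_zero]
  norm_num

theorem vv_one : vv 1 = 1 := by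
  unfold vv
  refine Set.projIcc_of_right_le _ ?_
  rw [Set.Icc.coe_one]
  norm_num

theorem vv_mid {s : I} (h1 : 1 / 3 ≤ (s : ℝ)) (h2 : (s : ℝ) ≤ 2 / 3) : vv s = 0 := by
  unfold vv
  refine Set.projIcc_of_le_left _ ?_
  refine max_le ?_ ?_ <;> linarith

theorem d3 : T_D3 := by
  intro Y _ _ y0 k N b P R Φ hb hP hR hΦ h0 h1 hbd
  have m0 : ∀ a : I, max a 0 = a := fun a => max_eq_left a.2.1
  have m1 : ∀ a : I, max a 1 = 1 := fun a => max_eq_right a.2.2
  have m1' : ∀ a : I, max 1 a = 1 := fun a => max_eq_left a.2.2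
  obtain ⟨bv, hbv⟩ := hb
  obtain ⟨gam⟩ := exists_null y0 bv
  have g0 : ∀ y, jj y0 N (gam (0, y)) = b y := fun y => by rw [gam.apply_zero, hbv]
  have g1 : ∀ y, jj y0 N (gam (1, y)) = 0 := fun y => by
    rw [gam.apply_one, ContinuousMap.const_apply, jj_pt]
  have hg : IsC y0 N (fun p : I × (Fin k → I) => jj y0 N (gam p)) := ⟨gam.toContinuousMap,
    fun _ => rfl⟩
  -- the homotopy `K`
  have hK : IsC y0 (N + N) (fun p : I × (Fin k → I) => if (p.1 : ℝ) ≤ 1 / 3 then
      ((fun p : I × (Fin k → I) => jj y0 N (gam (vv p.1, p.2))) +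
        fun p : I × (Fin k → I) => P p.2) p else
      (if (p.1 : ℝ) ≤ 2 / 3 then Φ (Set.projIcc 0 1 zero_le_one (3 * (p.1 : ℝ) - 1), p.2) else
      ((fun p : I × (Fin k → I) => jj y0 N (gam (vv p.1, p.2))) +
        fun p : I × (Fin k → I) => R p.2) p)) := by
    have c1 : IsC y0 N (fun p : I × (Fin k → I) => jj y0 N (gam (vv p.1, p.2))) :=
      IsC.comp hg (φ := fun p : I × (Fin k → I) => (vv p.1, p.2))
        ((continuous_vv.comp continuous_fst).prodMk continuous_snd)
    have c2 : IsC y0 (N + N) (fun p : I × (Fin k → I) =>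
        Φ (Set.projIcc 0 1 zero_le_one (3 * (p.1 : ℝ) - 1), p.2)) :=
      IsC.comp (IsC.mono (Nat.le_add_right N N) hΦ)
        (φ := fun p : I × (Fin k → I) => (Set.projIcc 0 1 zero_le_one (3 * (p.1 : ℝ) - 1), p.2))
        ((continuous_projIcc.comp (by fun_prop)).prodMk continuous_snd)
    refine IsC.ite (IsC.add c1 (IsC.comp hP continuous_snd)) (IsC.ite c2
      (IsC.add c1 (IsC.comp hR continuous_snd)) (by fun_prop) continuous_const ?_)
      (by fun_prop) continuous_const ?_
    · rintro ⟨s, y⟩ hs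
      have hs : (s : ℝ) = 2 / 3 := hs
      have e1 : Set.projIcc (0 : ℝ) 1 zero_le_one (3 * (s : ℝ) - 1) = 1 := by
        refine Set.projIcc_of_right_le _ ?_
        linarith
      have e2 : vv s = 0 := vv_mid (by linarith) hs.le
      change Φ (Set.projIcc 0 1 zero_le_one (3 * (s : ℝ) - 1), y) = jj y0 N (gam (vv s, y)) + R y
      rw [e1, e2, h1, g0]
    · rintro ⟨s, y⟩ hs
      have hs : (s : ℝ) = 1 / 3 := hs
      have e1 : Set.projIcc (0 : ℝ) 1 zero_le_one (3 * (s : ℝ) - 1) = 0 := by
        refine Set.projIcc_of_le_left _ ?_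
        linarith
      have e2 : vv s = 0 := vv_mid hs.ge (by linarith)
      change jj y0 N (gam (vv s, y)) + P y = if (s : ℝ) ≤ 2 / 3 then
        Φ (Set.projIcc 0 1 zero_le_one (3 * (s : ℝ) - 1), y) else jj y0 N (gam (vv s, y)) + R y
      rw [if_pos (by linarith), e1, e2, h0, g0]
  obtain ⟨K, hK⟩ := hK
  have hK' : ∀ s y, jj y0 (N + N) (K (s, y)) = if (s : ℝ) ≤ 1 / 3 then
      jj y0 N (gam (vv s, y)) + P y else
      (if (s : ℝ) ≤ 2 / 3 then Φ (Set.projIcc 0 1 zero_le_one (3 * (s : ℝ) - 1), y) else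
      jj y0 N (gam (vv s, y)) + R y) := fun s y => (hK (s, y)).symm
  obtain ⟨f, hf⟩ := IsC.mono (Nat.le_add_right N N) hP
  obtain ⟨g, hg'⟩ := IsC.mono (Nat.le_add_right N N) hR
  -- the map `L`
  have hL : IsC y0 (N + N) (fun p : I × (I × (Fin k → I)) =>
      jj y0 N (gam (max (vv p.2.1) p.1, p.2.2))) :=
    IsC.comp (IsC.mono (Nat.le_add_right N N) hg)
      (φ := fun p : I × (I × (Fin k → I)) => (max (vv p.2.1) p.1, p.2.2))
      (((continuous_vv.comp (continuous_fst.comp continuous_snd)).max continuous_fst).prodMk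
        (continuous_snd.comp continuous_snd))
  obtain ⟨L, hL⟩ := hL
  have hL' : ∀ r s y, jj y0 (N + N) (L (r, (s, y))) = jj y0 N (gam (max (vv s) r, y)) :=
    fun r s y => (hL (r, (s, y))).symm
  have hH := cl (SP (N + N) Y) k f g K L
    (fun y => by
      refine jj_injective y0 _ ?_
      rw [hK', ← hf, Set.Icc.coe_zero, if_pos (by norm_num), vv_zero, g1, zero_add])
    (fun y => by
      refine jj_injective y0 _ ?_
      rw [hK', ← hg', Set.Icc.coe_one, if_neg (by norm_num), if_neg (by norm_num), vv_one, g1,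
        zero_add])
    (fun s y hy => by
      refine jj_injective y0 _ ?_
      obtain ⟨b1, b2, b3⟩ := hbd y hy
      rw [hK', hL', m0, b1, b2, add_zero, b3]
      split_ifs with e1 e2
      · rfl
      · rw [vv_mid (not_le.1 e1).le e2, g0]
      · rfl)
    (fun s y hy => by
      refine jj_injective y0 _ ?_
      rw [hL', ← hf, m1, g1, (hbd y hy).1])
    (fun r y hy => by
      constructor
      · refine jj_injective y0 _ ?_
        rw [hL', ← hf, vv_zero, m1', g1, (hbd y hy).1]
      · refine jj_injective y0 _ ?_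
        rw [hL', ← hf, vv_one, m1', g1, (hbd y hy).1])
  obtain ⟨H⟩ := hH
  refine ⟨N + N, fun p => jj y0 (N + N) (H p), ⟨H.toContinuousMap, fun _ => rfl⟩, ?_, ?_, ?_⟩
  · intro y
    change jj y0 (N + N) (H (0, y)) = P y
    rw [H.apply_zero, hf]
  · intro y
    change jj y0 (N + N) (H (1, y)) = R y
    rw [H.apply_one, hg']
  · intro y hy s
    change jj y0 (N + N) (H (s, y)) = 0
    rw [H.eq_fst s hy, ← hf, (hbd y hy).1]

end

end Pool.Agent.H90.SP
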