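import Mathlib
import Pool.Agent.H90.SP.JC

/-!
# The pointwise sum represents the product in the homotopy group
-/

set_option autoImplicit false

open Topology Set
open scoped unitInterval
open Pool.Agent.H59 Pool.Agent.H64.LB Pool.Agent.H93.SPB

namespace Pool.Agent.H90.SP

noncomputable section

variable {n : ℕ}

/-- stretching the `0`-th coordinate, from the left -/
def stA (s : I) (t : Fin (n + 1) → I) : Fin (n + 1) → I :=
  Function.update t 0 (Set.projIcc 0 1 zero_le_one ((1 + (s : ℝ)) * t 0))

/-- stretching the `0`-th coordinate, from the right -/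
def stB (s : I) (t : Fin (n + 1) → I) : Fin (n + 1) → I :=
  Function.update t 0 (Set.projIcc 0 1 zero_le_one ((1 + (s : ℝ)) * t 0 - s))

theorem continuous_stA : Continuous (fun p : I × (Fin (n + 1) → I) => stA p.1 p.2) := by
  refine continuous_snd.update 0 (continuous_projIcc.comp ?_)
  fun_prop

theorem continuous_stB : Continuous (fun p : I × (Fin (n + 1) → I) => stB p.1 p.2) := by
  refine continuous_snd.update 0 (continuous_projIcc.comp ?_)
  fun_prop

theorem upd_boundary {t : Fin (n + 1) → I} {a : I} (ht : t ∈ Cube.boundary (Fin (n + 1)))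
    (h0 : t 0 = 0 → a = 0) (h1 : t 0 = 1 → a = 1) :
    Function.update t 0 a ∈ Cube.boundary (Fin (n + 1)) := by
  obtain ⟨j, hj⟩ := ht
  by_cases e : j = 0
  · subst e
    refine ⟨0, ?_⟩
    rw [Function.update_self]
    exact hj.imp h0 h1
  · refine ⟨j, ?_⟩
    rw [Function.update_of_ne e]
    exact hj

theorem stA_boundary {s : I} {t : Fin (n + 1) → I} (ht : t ∈ Cube.boundary (Fin (n + 1))) :
    stA s t ∈ Cube.boundary (Fin (n + 1)) := by
  refine upd_boundary ht (fun h => ?_) (fun h => ?_)
  · rw [h]
    refine Set.projIcc_of_le_left _ ?_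
    simp
  · rw [h]
    refine Set.projIcc_of_right_le _ ?_
    have := s.2.1
    rw [Set.Icc.coe_one]
    linarith

theorem stB_boundary {s : I} {t : Fin (n + 1) → I} (ht : t ∈ Cube.boundary (Fin (n + 1))) :
    stB s t ∈ Cube.boundary (Fin (n + 1)) := by
  refine upd_boundary ht (fun h => ?_) (fun h => ?_)
  · rw [h]
    refine Set.projIcc_of_le_left _ ?_
    have := s.2.1
    rw [Set.Icc.coe_zero]
    linarith
  · rw [h]
    refine Set.projIcc_of_right_le _ ?_
    rw [Set.Icc.coe_one]
    linarith

theorem stA_zero (t : Fin (n + 1) → I) : stA 0 t = t := by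
  unfold stA
  rw [Set.Icc.coe_zero, add_zero, one_mul, Set.projIcc_val]
  exact Function.update_eq_self 0 t

theorem stB_zero (t : Fin (n + 1) → I) : stB 0 t = t := by
  unfold stB
  rw [Set.Icc.coe_zero, add_zero, one_mul, sub_zero, Set.projIcc_val]
  exact Function.update_eq_self 0 t

theorem transAt_apply {X : Type*} [TopologicalSpace X] {x : X} (f g : GenLoop (Fin (n + 1)) X x)
    (t : Fin (n + 1) → I) :
    GenLoop.transAt 0 f g t = if (t 0 : ℝ) ≤ 1 / 2
      then f (Function.update t 0 (Set.projIcc 0 1 zero_le_one (2 * (t 0 : ℝ))))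
      else g (Function.update t 0 (Set.projIcc 0 1 zero_le_one (2 * (t 0 : ℝ) - 1))) := rfl

theorem hcl_mul {X : Type} [TopologicalSpace X] {x : X} {k : ℕ}
    (p q : GenLoop (Fin (k + 2)) X x) : hcl p * hcl q = hcl (GenLoop.transAt 0 q p) :=
  HomotopyGroup.mul_spec (i := 0) (p := p) (q := q)

theorem eh : T_EH := by
  intro Y _ y0 k a b N hab u v hu hv hb p p₁ p₂ hp hp1 hp2
  rw [hcl_mul]
  have hG : IsC y0 N ((fun q : I × (Fin (k + 2) → I) => v (stA q.1 q.2)) +
      fun q : I × (Fin (k + 2) → I) => u (stB q.1 q.2)) := by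
    refine IsC.mono (show b + a ≤ N by omega) (IsC.add ?_ ?_)
    · exact IsC.comp hv continuous_stA
    · exact IsC.comp hu continuous_stB
  obtain ⟨w, hw⟩ := hG
  have hw' : ∀ s t, jj y0 N (w (s, t)) = v (stA s t) + u (stB s t) := fun s t => (hw (s, t)).symm
  refine Quotient.sound (s := GenLoop.Homotopic.setoid _ _) ⟨⟨⟨w, fun t => ?_, fun t => ?_⟩, ?_⟩⟩
  · refine jj_injective y0 N ?_
    change jj y0 N (w (0, t)) = jj y0 N (p t)
    rw [hw', stA_zero, stB_zero, hp, add_comm]
  · refine jj_injective y0 N ?_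
    change jj y0 N (w (1, t)) = jj y0 N (GenLoop.transAt 0 p₂ p₁ t)
    rw [hw', transAt_apply]
    split_ifs with h
    · rw [hp2]
      have h1 : stB 1 t ∈ Cube.boundary (Fin (k + 2)) := by
        refine ⟨0, Or.inl ?_⟩
        unfold stB
        rw [Function.update_self]
        refine Set.projIcc_of_le_left _ ?_
        rw [Set.Icc.coe_one]
        linarith
      rw [(hb _ h1).1, add_zero]
      unfold stA
      rw [Set.Icc.coe_one]
      norm_num
    · rw [hp1]
      have h1 : stA 1 t ∈ Cube.boundary (Fin (k + 2)) := by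
        refine ⟨0, Or.inr ?_⟩
        unfold stA
        rw [Function.update_self]
        refine Set.projIcc_of_right_le _ ?_
        rw [Set.Icc.coe_one]
        linarith
      rw [(hb _ h1).2, zero_add]
      unfold stB
      rw [Set.Icc.coe_one]
      norm_num
  · intro s t ht
    refine jj_injective y0 N ?_
    change jj y0 N (w (s, t)) = jj y0 N (p t)
    rw [hw', hp, (hb _ (stA_boundary ht)).2, (hb _ (stB_boundary ht)).1, (hb _ ht).1, (hb _ ht).2]

end

end Pool.Agent.H90.SP
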