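import Mathlib
import Pool.Agent.H90.SP.EH
import Pool.Agent.H90.SP.D3

/-!
# Change of the base point
-/

set_option autoImplicit false

open Topology Set
open scoped unitInterval
open Pool.Agent.H59 Pool.Agent.H64.LB Pool.Agent.H93.SPB

namespace Pool.Agent.H90.SP

noncomputable section

variable {X : Type} [TopologicalSpace X] {x y : X} {n : ℕ}

/-- `q` is obtained from `p` by a homotopy whose restriction to the boundary is the path `c` -/
def Rel (c : Path x y) (p : GenLoop (Fin n) X x) (q : GenLoop (Fin n) X y) : Prop :=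
  ∃ K : C(I × (Fin n → I), X), (∀ t, K (0, t) = p t) ∧ (∀ t, K (1, t) = q t) ∧
    ∀ s, ∀ t ∈ Cube.boundary (Fin n), K (s, t) = c s

theorem Rel.symm {c : Path x y} {p : GenLoop (Fin n) X x} {q : GenLoop (Fin n) X y}
    (h : Rel c p q) : Rel c.symm q p := by
  obtain ⟨K, h0, h1, hb⟩ := h
  refine ⟨K.comp ⟨fun p => (σ p.1, p.2), by fun_prop⟩, fun t => ?_, fun t => ?_, fun s t ht => ?_⟩
  · change K (σ 0, t) = q t
    rw [unitInterval.symm_zero, h1]
  · change K (σ 1, t) = p t
    rw [unitInterval.symm_one, h0]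
  · change K (σ s, t) = c (σ s)
    exact hb _ _ ht

theorem Rel.exists (c : Path x y) (p : GenLoop (Fin n) X x) : ∃ q, Rel c p q := by
  set r : I × (Fin n → I) → I := fun z =>
    Set.projIcc 0 1 zero_le_one ((1 + (z.1 : ℝ)) * nn z.2 - 1) with hr
  have cn : Continuous fun z : I × (Fin n → I) => (1 + (z.1 : ℝ)) * nn z.2 :=
    (continuous_const.add (continuous_subtype_val.comp continuous_fst)).mul
      (continuous_nn.comp continuous_snd)
  have cr : Continuous r := continuous_projIcc.comp (cn.sub continuous_const)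
  set F : I × (Fin n → I) → X := fun z =>
    if (1 + (z.1 : ℝ)) * nn z.2 ≤ 1 then p (qq z.1 z.2) else c (r z) with hF
  have cF : Continuous F := by
    refine Continuous.if_le ?_ ?_ cn continuous_const ?_
    · exact p.1.continuous.comp continuous_qq
    · exact c.continuous.comp cr
    · rintro ⟨s, t⟩ h
      have h : (1 + (s : ℝ)) * nn t = 1 := h
      have e : r (s, t) = 0 := by
        simp only [hr, h]
        norm_num
      change p (qq s t) = c (r (s, t))
      rw [e, c.source]
      exact p.2 _ (qq_mem h.ge)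
  have hbd : ∀ s, ∀ t ∈ Cube.boundary (Fin n), F (s, t) = c s := by
    intro s t ht
    have e := nn_boundary ht
    simp only [hF, hr, e, mul_one]
    split_ifs with h
    · have : s = 0 := by
        refine Subtype.ext ?_
        have := s.2.1
        rw [Set.Icc.coe_zero]
        linarith
      subst this
      rw [qq_zero, c.source]
      exact p.2 _ ht
    · congr 1
      rw [add_sub_cancel_left]
      exact Set.projIcc_val _ _
  refine ⟨⟨⟨fun t => F (1, t), cF.comp (continuous_const.prodMk continuous_id)⟩, fun t ht => ?_⟩,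
    ⟨F, cF⟩, fun t => ?_, fun t => rfl, hbd⟩
  · change F (1, t) = y
    rw [hbd 1 t ht, c.target]
  · change F (0, t) = p t
    simp only [hF, Set.Icc.coe_zero, add_zero, one_mul, if_pos (nn_le_one t), qq_zero]

theorem Rel.homotopic {c : Path x y} {p p' : GenLoop (Fin n) X x} {q q' : GenLoop (Fin n) X y}
    (h : Rel c p q) (h' : Rel c p' q') (hp : GenLoop.Homotopic p p') :
    GenLoop.Homotopic q q' := by
  have m0 : ∀ a : I, max a 0 = a := fun a => max_eq_left a.2.1
  have m1 : ∀ a : I, max a 1 = 1 := fun a => max_eq_right a.2.2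
  have m1' : ∀ a : I, max 1 a = 1 := fun a => max_eq_left a.2.2
  obtain ⟨K, h0, h1, hb⟩ := h
  obtain ⟨K', h0', h1', hb'⟩ := h'
  obtain ⟨H⟩ := hp
  have H0 : ∀ t, H (0, t) = p t := fun t => H.apply_zero t
  have H1 : ∀ t, H (1, t) = p' t := fun t => H.apply_one t
  have Hb : ∀ s, ∀ t ∈ Cube.boundary (Fin n), H (s, t) = x := fun s t ht =>
    (H.eq_fst s ht).trans (p.2 t ht)
  set G : I × (Fin n → I) → X := fun z => if (z.1 : ℝ) ≤ 1 / 3 then K (vv z.1, z.2) else
    if (z.1 : ℝ) ≤ 2 / 3 then H (Set.projIcc 0 1 zero_le_one (3 * (z.1 : ℝ) - 1), z.2) else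
      K' (vv z.1, z.2) with hG
  have cv : Continuous fun z : I × (Fin n → I) => (vv z.1, z.2) :=
    (continuous_vv.comp continuous_fst).prodMk continuous_snd
  have cG : Continuous G := by
    refine Continuous.if_le (K.continuous.comp cv) (Continuous.if_le ?_ (K'.continuous.comp cv)
      (by fun_prop) continuous_const ?_) (by fun_prop) continuous_const ?_
    · exact H.continuous.comp ((continuous_projIcc.comp (by fun_prop)).prodMk continuous_snd)
    · rintro ⟨s, t⟩ hs
      have hs : (s : ℝ) = 2 / 3 := hs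
      have e1 : Set.projIcc (0 : ℝ) 1 zero_le_one (3 * (s : ℝ) - 1) = 1 := by
        refine Set.projIcc_of_right_le _ ?_
        linarith
      change H (Set.projIcc 0 1 zero_le_one (3 * (s : ℝ) - 1), t) = K' (vv s, t)
      rw [e1, vv_mid (by linarith) hs.le, H1, h0']
    · rintro ⟨s, t⟩ hs
      have hs : (s : ℝ) = 1 / 3 := hs
      have e1 : Set.projIcc (0 : ℝ) 1 zero_le_one (3 * (s : ℝ) - 1) = 0 := by
        refine Set.projIcc_of_le_left _ ?_
        linarith
      change K (vv s, t) = if (s : ℝ) ≤ 2 / 3 then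
        H (Set.projIcc 0 1 zero_le_one (3 * (s : ℝ) - 1), t) else K' (vv s, t)
      rw [if_pos (by linarith), e1, vv_mid hs.ge (by linarith), H0, h0]
  have hGb : ∀ s, ∀ t ∈ Cube.boundary (Fin n), G (s, t) = c (vv s) := by
    intro s t ht
    simp only [hG]
    split_ifs with e1 e2
    · exact hb _ _ ht
    · rw [Hb _ _ ht, vv_mid (not_le.1 e1).le e2, c.source]
    · exact hb' _ _ ht
  have cL : Continuous fun z : I × (I × (Fin n → I)) => c (max (vv z.2.1) z.1) :=
    c.continuous.comp ((continuous_vv.comp (continuous_fst.comp continuous_snd)).max continuous_fst)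
  refine cl X n q.1 q'.1 ⟨G, cG⟩ ⟨_, cL⟩ (fun t => ?_) (fun t => ?_) (fun s t ht => ?_)
    (fun s t ht => ?_) (fun r t ht => ?_)
  · change G (0, t) = q t
    simp only [hG, Set.Icc.coe_zero, vv_zero]
    rw [if_pos (by norm_num), h1]
  · change G (1, t) = q' t
    simp only [hG, Set.Icc.coe_one, vv_one]
    rw [if_neg (by norm_num), if_neg (by norm_num), h1']
  · change c (max (vv s) 0) = G (s, t)
    rw [m0, hGb s t ht]
  · change c (max (vv s) 1) = q t
    rw [m1, c.target]
    exact (q.2 t ht).symm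
  · constructor
    · change c (max (vv 0) r) = q t
      rw [vv_zero, m1', c.target]
      exact (q.2 t ht).symm
    · change c (max (vv 1) r) = q t
      rw [vv_one, m1', c.target]
      exact (q.2 t ht).symm

theorem Rel.trans {c : Path x y} {p p' : GenLoop (Fin (n + 1)) X x}
    {q q' : GenLoop (Fin (n + 1)) X y} (h : Rel c p q) (h' : Rel c p' q') :
    Rel c (GenLoop.transAt 0 p p') (GenLoop.transAt 0 q q') := by
  obtain ⟨K, h0, h1, hb⟩ := h
  obtain ⟨K', h0', h1', hb'⟩ := h'
  set G : I × (Fin (n + 1) → I) → X := fun z => if (z.2 0 : ℝ) ≤ 1 / 2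
    then K (z.1, Function.update z.2 0 (Set.projIcc 0 1 zero_le_one (2 * (z.2 0 : ℝ))))
    else K' (z.1, Function.update z.2 0 (Set.projIcc 0 1 zero_le_one (2 * (z.2 0 : ℝ) - 1))) with hG
  have cG : Continuous G := by
    refine Continuous.if_le ?_ ?_ (by fun_prop) continuous_const ?_
    · exact K.continuous.comp (continuous_fst.prodMk (continuous_snd.update 0
        (continuous_projIcc.comp (by fun_prop))))
    · exact K'.continuous.comp (continuous_fst.prodMk (continuous_snd.update 0
        (continuous_projIcc.comp (by fun_prop))))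
    · rintro ⟨s, t⟩ hs
      have hs : (t 0 : ℝ) = 1 / 2 := hs
      change K (s, Function.update t 0 (Set.projIcc 0 1 zero_le_one (2 * (t 0 : ℝ)))) =
        K' (s, Function.update t 0 (Set.projIcc 0 1 zero_le_one (2 * (t 0 : ℝ) - 1)))
      rw [hb, hb']
      · refine ⟨0, Or.inl ?_⟩
        rw [Function.update_self, hs]
        refine Set.projIcc_of_le_left _ ?_
        norm_num
      · refine ⟨0, Or.inr ?_⟩
        rw [Function.update_self, hs]
        refine Set.projIcc_of_right_le _ ?_
        norm_num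
  refine ⟨⟨G, cG⟩, fun t => ?_, fun t => ?_, fun s t ht => ?_⟩
  · change G (0, t) = GenLoop.transAt 0 p p' t
    rw [transAt_apply]
    simp only [hG, h0, h0']
  · change G (1, t) = GenLoop.transAt 0 q q' t
    rw [transAt_apply]
    simp only [hG, h1, h1']
  · change G (s, t) = c s
    simp only [hG]
    split_ifs with e
    · refine hb _ _ (upd_boundary ht (fun h => ?_) (fun h => ?_))
      · rw [h]
        refine Set.projIcc_of_le_left _ ?_
        simp
      · exfalso
        rw [h, Set.Icc.coe_one] at e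
        norm_num at e
    · refine hb' _ _ (upd_boundary ht (fun h => ?_) (fun h => ?_))
      · exfalso
        rw [h, Set.Icc.coe_zero] at e
        norm_num at e
      · rw [h]
        refine Set.projIcc_of_right_le _ ?_
        rw [Set.Icc.coe_one]
        norm_num

/-- the transport of a loop -/
def tr (c : Path x y) (p : GenLoop (Fin n) X x) : GenLoop (Fin n) X y := (Rel.exists c p).choose

theorem tr_rel (c : Path x y) (p : GenLoop (Fin n) X x) : Rel c p (tr c p) :=
  (Rel.exists c p).choose_spec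

theorem hcl_eq {X : Type} [TopologicalSpace X] {x : X} {k : ℕ} {p q : GenLoop (Fin k) X x} :
    hcl p = hcl q ↔ GenLoop.Homotopic p q :=
  ⟨fun h => Quotient.exact (s := GenLoop.Homotopic.setoid _ _) h,
    fun h => Quotient.sound (s := GenLoop.Homotopic.setoid _ _) h⟩

theorem hcl_surj {X : Type} [TopologicalSpace X] {x : X} {k : ℕ} (a : HomotopyGroup.Pi k X x) :
    ∃ p : GenLoop (Fin k) X x, hcl p = a := Quotient.exists_rep a

theorem hcl_mul' {X : Type} [TopologicalSpace X] {x : X} {k : ℕ}
    (p q : GenLoop (Fin (k + 1)) X x) : hcl p * hcl q = hcl (GenLoop.transAt 0 q p) :=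
  HomotopyGroup.mul_spec (i := 0) (p := p) (q := q)

/-- transport on the homotopy group -/
def trQ (c : Path x y) (k : ℕ) : HomotopyGroup.Pi (k + 1) X x →* HomotopyGroup.Pi (k + 1) X y :=
  MonoidHom.mk' (Quotient.lift (s := GenLoop.Homotopic.setoid _ _) (fun p => hcl (tr c p))
    (fun p p' h => hcl_eq.2 ((tr_rel c p).homotopic (tr_rel c p') h))) (by
    intro a b
    obtain ⟨p, rfl⟩ := hcl_surj a
    obtain ⟨p', rfl⟩ := hcl_surj b
    rw [hcl_mul']
    change hcl (tr c (GenLoop.transAt 0 p' p)) = hcl (tr c p) * hcl (tr c p')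
    rw [hcl_mul', hcl_eq]
    exact (tr_rel c _).homotopic ((tr_rel c p').trans (tr_rel c p)) (GenLoop.Homotopic.refl _))

theorem trQ_hcl (c : Path x y) (k : ℕ) (p : GenLoop (Fin (k + 1)) X x) :
    trQ c k (hcl p) = hcl (tr c p) := rfl

theorem bc : T_BC := by
  intro X _ _ x y k
  obtain ⟨c⟩ := PathConnectedSpace.joined x y
  refine ⟨MulEquiv.ofBijective (trQ c k) ⟨?_, ?_⟩⟩
  · intro a b h
    obtain ⟨p, rfl⟩ := hcl_surj a
    obtain ⟨p', rfl⟩ := hcl_surj b
    rw [trQ_hcl, trQ_hcl, hcl_eq] at h
    exact hcl_eq.2 ((tr_rel c p).symm.homotopic (tr_rel c p').symm h)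
  · intro a
    obtain ⟨q, rfl⟩ := hcl_surj a
    obtain ⟨p, hp⟩ := Rel.exists c.symm q
    refine ⟨hcl p, ?_⟩
    rw [trQ_hcl, hcl_eq]
    have h := hp.symm
    rw [Path.symm_symm] at h
    exact (tr_rel c p).homotopic h (GenLoop.Homotopic.refl _)

end

end Pool.Agent.H90.SP
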